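import Mathlib
import Pool.Agent.Lib_helper38.XA.Defs

/-! XA, block K1: basic facts on the Fourier transforms of functions with values `1`, `-1` -/

set_option autoImplicit false

namespace Pool.Agent.XA

open Finset Filter Pool.Agent.XO

variable {V : Type} [AddCommGroup V] [Fintype V] [DecidableEq V]

theorem bf_neg {F : V → ℂ} (hF : BF F) : BF (fun c => -F c) := by
  constructor
  · intro g
    rw [← hF.conv g]
    apply Finset.sum_congr rfl
    intro c _
    ring
  · intro c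
    show -F (-c) = (starRingEnd ℂ) (-F c)
    rw [hF.conj c, map_neg]

theorem k1_sq {F : V → ℂ} (hF : BF F) (ξ : AddChar V ℂ) : ev F ξ * ev F ξ = 1 := by
  unfold ev
  rw [Finset.sum_mul_sum]
  have h1 : ∀ c : V, ∑ d : V, F c * ξ c * (F d * ξ d) = ∑ g : V, F c * F (g - c) * ξ g := by
    intro c
    rw [← Equiv.sum_comp (Equiv.subRight c) (fun d => F c * ξ c * (F d * ξ d))]
    apply Finset.sum_congr rfl
    intro g _
    have h2 : ξ g = ξ c * ξ (g - c) := by
      rw [← AddChar.map_add_eq_mul]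
      congr 1
      abel
    simp only [Equiv.subRight_apply]
    rw [h2]
    ring
  rw [Finset.sum_congr rfl (fun c _ => h1 c), Finset.sum_comm]
  have h3 : ∀ g : V, ∑ c : V, F c * F (g - c) * ξ g = if g = 0 then 1 else 0 := by
    intro g
    rw [← Finset.sum_mul, hF.conv g]
    by_cases hg : g = 0
    · rw [if_pos hg, hg, AddChar.map_zero_eq_one, one_mul]
    · rw [if_neg hg, zero_mul]
  rw [Finset.sum_congr rfl (fun g _ => h3 g)]
  simp

theorem bf_ev {F : V → ℂ} (hF : BF F) (ξ : AddChar V ℂ) : ev F ξ = 1 ∨ ev F ξ = -1 :=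
  mul_self_eq_one_iff.1 (k1_sq hF ξ)

theorem bf_norm_sq {F : V → ℂ} (hF : BF F) : ∑ c, ‖F c‖ ^ 2 = 1 := by
  have h1 := hF.conv 0
  rw [if_pos rfl] at h1
  have h2 : ∑ c, F c * F (0 - c) = ((∑ c, ‖F c‖ ^ 2 : ℝ) : ℂ) := by
    push_cast
    apply Finset.sum_congr rfl
    intro c _
    rw [zero_sub, hF.conj c, Complex.mul_conj, Complex.normSq_eq_norm_sq]
    push_cast
    rfl
  rw [h2] at h1
  exact_mod_cast h1

theorem bf_le_one {F : V → ℂ} (hF : BF F) (c : V) : ‖F c‖ ≤ 1 := by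
  have h1 := bf_norm_sq hF
  have h2 : ‖F c‖ ^ 2 ≤ ∑ c, ‖F c‖ ^ 2 :=
    Finset.single_le_sum (f := fun c => ‖F c‖ ^ 2) (fun _ _ => by positivity) (Finset.mem_univ c)
  have h3 : 0 ≤ ‖F c‖ := norm_nonneg _
  nlinarith

theorem bf_L1_ge {F : V → ℂ} (hF : BF F) : 1 ≤ L1 F := by
  unfold L1
  rw [← bf_norm_sq hF]
  apply Finset.sum_le_sum
  intro c _
  have h1 := bf_le_one hF c
  have h2 : 0 ≤ ‖F c‖ := norm_nonneg _
  nlinarith

theorem bf_L1_le {F : V → ℂ} (hF : BF F) : L1 F ≤ (spt F).card := by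
  classical
  unfold L1 spt
  rw [← Finset.sum_filter_add_sum_filter_not univ (fun c => F c ≠ 0) (fun c => ‖F c‖)]
  have h1 : ∑ c ∈ univ.filter (fun c => ¬ F c ≠ 0), ‖F c‖ = 0 := by
    apply Finset.sum_eq_zero
    intro c hc
    rw [Finset.mem_filter] at hc
    have h2 : F c = 0 := not_not.1 hc.2
    rw [h2, norm_zero]
  rw [h1, add_zero]
  calc ∑ c ∈ univ.filter (fun c => F c ≠ 0), ‖F c‖ ≤
        ∑ _c ∈ univ.filter (fun c => F c ≠ 0), (1 : ℝ) :=
        Finset.sum_le_sum (fun c _ => bf_le_one hF c)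
    _ = _ := by
        rw [Finset.sum_const, nsmul_eq_mul, mul_one]

end Pool.Agent.XA
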