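import Mathlib
import Pool.Agent.Lib_helper38.XA.Defs

/-! XA, block A1: finitely many small arcs -/

set_option autoImplicit false

namespace Pool.Agent.XA

open Finset Filter Pool.Agent.XO

/-- finitely many small arcs -/
theorem arc_exists : ∃ (k : ℕ) (arc : ℂ → Fin k), ∀ z w : ℂ, ‖z‖ = 1 → ‖w‖ = 1 → arc z = arc w →
    ‖z - w‖ ≤ 1 / 10 := by
  classical
  obtain ⟨t, _, htf, hcov⟩ := (isCompact_sphere (0 : ℂ) 1).finite_cover_balls
    (show (0 : ℝ) < 1 / 20 by norm_num)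
  have h1 : ∀ z : ℂ, ‖z‖ = 1 → ∃ x ∈ htf.toFinset, dist z x < 1 / 20 := by
    intro z hz
    have h2 : z ∈ Metric.sphere (0 : ℂ) 1 := by
      rw [mem_sphere_zero_iff_norm]; exact hz
    have h3 := hcov h2
    rw [Set.mem_iUnion₂] at h3
    obtain ⟨x, hx, hzx⟩ := h3
    exact ⟨x, htf.mem_toFinset.2 hx, hzx⟩
  set T : Finset ℂ := insert 0 htf.toFinset with hT
  let c : ℂ → T := fun z => if h : ‖z‖ = 1 then
    ⟨(h1 z h).choose, Finset.mem_insert_of_mem (h1 z h).choose_spec.1⟩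
    else ⟨0, Finset.mem_insert_self _ _⟩
  have hc : ∀ z : ℂ, ‖z‖ = 1 → dist z (c z : ℂ) < 1 / 20 := by
    intro z hz
    have h4 : (c z : ℂ) = (h1 z hz).choose := by
      show ((if h : ‖z‖ = 1 then
        (⟨(h1 z h).choose, Finset.mem_insert_of_mem (h1 z h).choose_spec.1⟩ : T)
        else ⟨0, Finset.mem_insert_self _ _⟩ : T) : ℂ) = _
      rw [dif_pos hz]
    rw [h4]
    exact (h1 z hz).choose_spec.2
  refine ⟨T.card, fun z => T.equivFin (c z), ?_⟩
  intro z w hz hw h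
  have h5 : c z = c w := T.equivFin.injective h
  have h6 := hc z hz
  have h7 := hc w hw
  rw [h5] at h6
  rw [← dist_eq_norm]
  have h8 := dist_triangle_right z w (c w : ℂ)
  linarith

/-- products of elements of one arc are not far -/
theorem not_far_of_arc {k : ℕ} {arc : ℂ → Fin k}
    (harc : ∀ z w : ℂ, ‖z‖ = 1 → ‖w‖ = 1 → arc z = arc w → ‖z - w‖ ≤ 1 / 10)
    {z1 z2 w1 w2 : ℂ} (h1 : ‖z1‖ = 1) (h2 : ‖z2‖ = 1) (h3 : ‖w1‖ = 1) (h4 : ‖w2‖ = 1)
    (e1 : arc z1 = arc w1) (e2 : arc z2 = arc w2) : ¬ Far (z1 * z2) (w1 * w2) := by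
  unfold Far
  have h5 := harc z1 w1 h1 h3 e1
  have h6 := harc z2 w2 h2 h4 e2
  have h7 : ‖z1 * z2 - w1 * w2‖ ≤ 1 / 5 := by
    have h8 : z1 * z2 - w1 * w2 = (z1 - w1) * z2 + w1 * (z2 - w2) := by ring
    rw [h8]
    refine (norm_add_le _ _).trans ?_
    rw [norm_mul, norm_mul, h2, h3]
    linarith
  have h9 : ‖w1 * w2‖ = 1 := by rw [norm_mul, h3, h4, one_mul]
  have h10 : z1 * z2 * (starRingEnd ℂ) (w1 * w2) =
      (z1 * z2 - w1 * w2) * (starRingEnd ℂ) (w1 * w2) + 1 := by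
    have h11 : w1 * w2 * (starRingEnd ℂ) (w1 * w2) = 1 := by
      rw [Complex.mul_conj, Complex.normSq_eq_norm_sq, h9]
      norm_num
    rw [sub_mul, h11]
    ring
  have h12 : |((z1 * z2 - w1 * w2) * (starRingEnd ℂ) (w1 * w2)).re| ≤ 1 / 5 := by
    refine (Complex.abs_re_le_norm _).trans ?_
    rw [norm_mul, RCLike.norm_conj, h9, mul_one]
    exact h7
  rw [h10, Complex.add_re, Complex.one_re]
  have h13 := (abs_le.1 h12).1
  intro h14
  linarith

end Pool.Agent.XA
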